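import Mathlib
import Pool.Agent.Q54.TS3

/-!
# The least integer which is not a sum of at most `n` numbers `2 ^ i * 3 ^ j`: `log h_n ~ n log n`

Lower bound for `h_n`: let `N < 2 ^ L`.  The powers of `3` meet all residue classes `1, 3 (mod 8)` modulo every power
of `2`, with exponents smaller than a quarter of the modulus.  So if `N` is `1` or `3` modulo `8`, then for every
`B` with `2 ^ (2 ^ (B + 2)) ≤ N` there is a power of `3` with `N = 3 ^ b + 2 ^ B N'` and `N' ≡ 1 (mod 8)`: one term
removes `B` binary digits at the lower end, and the new number is in a good class again.  With `B` of the size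
`log_2 L` this gives a representation with about `L / log_2 L` terms (no digit is lost, contrary to the greedy
algorithm, for which the distances of consecutive numbers `2 ^ i * 3 ^ j` are needed).  Upper bound: counting of the
multisets of `n` numbers `2 ^ i * 3 ^ j` below `h_n`.
-/

set_option autoImplicit false

open Filter Topology

namespace Pool.Agent.Results.MP_126cd2_nt.LogAsymptotics

/-- `N` is a sum of at most `n` numbers of the form `2 ^ i * 3 ^ j` with `i, j ≥ 0`, repetitions allowed
(the empty sum is `0`). -/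
def IsSum (n N : ℕ) : Prop :=
  ∃ s : Multiset ℕ, s.card ≤ n ∧ (∀ m ∈ s, ∃ i j : ℕ, m = 2 ^ i * 3 ^ j) ∧ s.sum = N

/-- `h n` is the least positive integer which is not a sum of at most `n` numbers of the form `2 ^ i * 3 ^ j`. -/
noncomputable def h (n : ℕ) : ℕ := sInf {N : ℕ | 0 < N ∧ ¬ IsSum n N}

/-- (1) `h n` is well defined: it is positive and not a sum of at most `n` terms, but all smaller positive integers
are. (2) `log h n` is asymptotically equal to `n log n`. (3) More precisely, for all large `n`,
`n (log n + log log n - 6) ≤ log h n ≤ n (log n + 2 log log n + 8)`. -/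
theorem result :
    (∀ n : ℕ, 0 < h n ∧ ¬ IsSum n (h n) ∧ ∀ N : ℕ, 0 < N → N < h n → IsSum n N) ∧
    Tendsto (fun n : ℕ => Real.log (h n) / (n * Real.log n)) atTop (𝓝 1) ∧
    ∀ᶠ n : ℕ in atTop,
      (n : ℝ) * (Real.log n + Real.log (Real.log n) - 6) ≤ Real.log (h n) ∧
      Real.log (h n) ≤ (n : ℝ) * (Real.log n + 2 * Real.log (Real.log n) + 8) := by
  refine ⟨fun n => ⟨(Pool.Agent.Q54.TS.hh_mem n).1, (Pool.Agent.Q54.TS.hh_mem n).2, ?_⟩,
    Pool.Agent.Q54.TS.asymp, ?_⟩
  · intro N h0 hN
    exact Pool.Agent.Q54.TS.isSum_of_lt hN h0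
  · filter_upwards [Pool.Agent.Q54.TS.lower, Pool.Agent.Q54.TS.upper] with n h1 h2
    exact ⟨h1, h2⟩

end Pool.Agent.Results.MP_126cd2_nt.LogAsymptotics
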